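import Mathlib
import Pool.Agent.H733.CB.Iff
import Pool.Agent.R419.CF.Fin

/-!
# Beilinson's conjecture in the middle degree for diagonal cubic threefolds and fivefolds

`X_a ⊂ P^{2r+2}` is the diagonal cubic hypersurface `∑ a_i x_i³ = 0` of dimension `n = 2 r + 1`,
`r = 1` (threefolds, `i = 3`, `m = 2`) or `r = 2` (fivefolds, `i = 5`, `m = 3`), with positive integers
`a_0, …, a_{2r+2}` as coefficients.  For a set `T` of `r` indices put `M_T = (∏ a_i) (∏_{i ∈ T} a_i)`, and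
let `E_M : y² + M y = x³`, a curve that is `3`-isogenous to the cubic `x³ + y³ = M`.  It is well known
that `H^n(X_a)` is the direct sum of the `H^1(E_{M_T})(-r)`, and that
`V^m = CH^m(X_a)⁰ ⊗ ℚ` is the direct sum of the `E_{M_T}(ℚ) ⊗ ℚ` (the rational points of the intermediate
Jacobian); the second statement is not used and not proved below, the first one is proved for the numbers
of points over all finite fields.

`Class` consists of the cube-free `D`, prime to `3`, not `±1` modulo `9`, with exactly one prime factor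
`≡ 2` modulo `3`, and `NoSplit` is a condition on the cubic residues between the prime factors of
`D`; it holds for exactly `∏_{i ≥ 1} (1 - 3^{-i}) = 0.5601…` of the `D` in `Class` (starting files).

* If for all `T` the cube-free part of `M_T` is in `Class` and satisfies `NoSplit`, then `L(H^n(X_a), s)` is
  entire, its value at the centre `s = m` is not zero, it is an algebraic number times `Ω^b`,
  `b = binomial (2 r + 3, r) = dim H^n / 2` and `Ω = √3 Γ(1/3)³ / (2 π)` the real period of `y² + y = x³`,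
  and all the `E_{M_T}(ℚ)` are finite.
* For the hypersurfaces `x_0³ + … + x_n³ + D x_{n+1}³ = 0` the Euler product is the complete
  `L`-function.  For all `D` in `Class` it is entire and the value at the centre is
  `(Ω 3^{ω(D)} / 9)^b` times an algebraic number `u` which is integral at all places above `3`, and `u` is a
  unit there if and only if `D` satisfies `NoSplit`; in this case the `E_{M_T}(ℚ)` are finite.
* So for exactly 56 percent of the `D` in `Class`, for the threefold and the fivefold together, `u` is a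
  unit, and then both sides of Beilinson's equality of the order of vanishing and the rank are `0`.

The `L`-function is defined by the numbers of the points of `X_a` over all the finite fields.
The proof: the points are counted with cubic Gauss sums, the theorem of Hasse and Davenport, and
the value of the cubic Gauss sum over the field with `p²` elements, `p ≡ 2` modulo `3`; the twists by
`D` and by `D²` (`a b² ↦ a² b`) are treated together, as `Class` and `NoSplit` are symmetric; the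
theorem on one curve `E_D` is joint work in the starting files (`Pool/Agent/Y703/CT`).
-/

set_option autoImplicit false

open scoped Classical

namespace Pool.Agent.Results.MP_29b22a_nt.CubicThreefoldsFivefolds

open Polynomial

/-! ### The hypersurface, its points and its `L`-function -/

/-- The number of the points over `K` of the affine cone `∑ a_i x_i³ = 0`, without the origin. It is
`#K - 1` times the number of the `K`-points of the projective hypersurface `X_a`. -/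
noncomputable def coneCount {N : ℕ} (a : Fin N → ℕ) (K : Type) [Field K] : ℕ :=
  Nat.card {x : Fin N → K // x ≠ 0 ∧ ∑ i, (a i : K) * x i ^ 3 = 0}

/-- `P` is the polynomial `det (1 - T Frob_p)` on `H^n(X_a)`, `n = 2 r + 1`: its constant coefficient is
`1`, and for all fields `K` with `q = p ^ k` elements the number of the `K`-points of `X_a` is
`1 + q + … + q^n` minus the sum of the `k`-th powers of the inverse roots of `P`. -/
def IsFrobenius (r : ℕ) (a : Fin (2 * r + 3) → ℕ) (p : ℕ) (P : ℤ[X]) : Prop :=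
  P.coeff 0 = 1 ∧ ∀ k : ℕ, 1 ≤ k → ∀ (K : Type) [Field K] [Fintype K], Fintype.card K = p ^ k →
    (coneCount a K : ℂ) = ((p : ℂ) ^ k - 1) * (∑ j ∈ Finset.range (2 * r + 2), ((p : ℂ) ^ k) ^ j -
      (((P.map (Int.castRingHom ℂ)).reverse.roots).map (fun z => z ^ k)).sum)

/-- `F` is the entire continuation of `L(H^n(X_a), s)`, `n = 2 r + 1`, the product over the primes of
good reduction, which converges for `Re s > n / 2 + 1 = r + 3 / 2`. -/
def IsL (r : ℕ) (a : Fin (2 * r + 3) → ℕ) (F : ℂ → ℂ) : Prop :=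
  Differentiable ℂ F ∧ ∀ P : ℕ → ℤ[X],
    (∀ p : ℕ, p.Prime → ¬ p ∣ 3 * ∏ i, a i → IsFrobenius r a p (P p)) →
    ∀ s : ℂ, (r : ℝ) + 3 / 2 < s.re →
      HasProd (fun p : {p : ℕ // p.Prime ∧ ¬ p ∣ 3 * ∏ i, a i} =>
        (aeval ((p.1 : ℂ) ^ (-s)) (P p.1))⁻¹) (F s)

/-! ### The conditions on the coefficients -/

/-- `D` is cube-free, prime to `3`, not `±1` modulo `9`, and exactly one prime factor is `≡ 2` modulo
`3`. -/
def Class (D : ℕ) : Prop :=
  D ≠ 0 ∧ (∀ p : ℕ, p.Prime → ¬ p ^ 3 ∣ D) ∧ ¬ 3 ∣ D ∧ D % 9 ≠ 1 ∧ D % 9 ≠ 8 ∧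
    ∃ q : ℕ, q.Prime ∧ q % 3 = 2 ∧ q ∣ D ∧ ∀ p : ℕ, p.Prime → p ∣ D → p ≠ q → p % 3 = 1

/-- `D` is not a product `d₀ d₁ d₂` of coprime factors, at least two of them different from `1`,
such that `d₁ d₂²`, `d₂ d₀²`, `d₀ d₁²` are cubes modulo the primes dividing `d₀`, `d₁`, `d₂`. -/
def NoSplit (D : ℕ) : Prop :=
  ∀ d : ZMod 3 → ℕ, ∏ c, d c = D → (∀ c c', c ≠ c' → Nat.Coprime (d c) (d c')) →
    (∀ (c : ZMod 3) (p : ℕ), p.Prime → p ∣ d c →
      ∃ x : ℤ, (p : ℤ) ∣ (d (c + 1) : ℤ) * (d (c + 2) : ℤ) ^ 2 - x ^ 3) →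
    ∃ c, ∀ c', c' ≠ c → d c' = 1

/-- The number `M_T`. -/
def M {N : ℕ} (a : Fin N → ℕ) (T : Finset (Fin N)) : ℕ := (∏ i, a i) * ∏ i ∈ T, a i

/-! ### The conclusions -/

/-- The real period of `y² + y = x³`. -/
noncomputable def Ω : ℝ := √3 * (Real.Gamma (1 / 3) ^ 3 / (2 * Real.pi))

/-- `u` is a unit at all places above `3`: it is not zero, and for some `n` prime to `3` the
numbers `n u` and `n / u` are algebraic integers. -/
def ThreeUnit (u : ℂ) : Prop :=
  u ≠ 0 ∧ ∃ n : ℤ, IsCoprime 3 n ∧ IsIntegral ℤ ((n : ℂ) * u) ∧ IsIntegral ℤ ((n : ℂ) * u⁻¹)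

/-- `u` is integral at all places above `3`: for some `n` prime to `3` the number `n u` is an
algebraic integer. -/
def ThreeInt (u : ℂ) : Prop := ∃ n : ℤ, IsCoprime 3 n ∧ IsIntegral ℤ ((n : ℂ) * u)

/-- All the curves `E_M : y² + M y = x³`, `M = M_T` with `#T = r`, have finitely many rational points. -/
def FinitelyManyPoints (r : ℕ) (a : Fin (2 * r + 3) → ℕ) : Prop :=
  ∀ T : Finset (Fin (2 * r + 3)), T.card = r →
    {q : ℚ × ℚ | q.2 ^ 2 + (M a T : ℚ) * q.2 = q.1 ^ 3}.Finite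

/-- The `L`-function of `H^n(X_a)` is entire, its value at the centre `s = r + 1` is a nonzero
algebraic number times `Ω ^ (dim H^n / 2)`, and the `E_{M_T}(ℚ)` are finite. -/
def RankZero (r : ℕ) (a : Fin (2 * r + 3) → ℕ) : Prop :=
  (∃ (F : ℂ → ℂ) (u : ℂ), IsL r a F ∧ u ≠ 0 ∧ IsAlgebraic ℚ u ∧
    F (r + 1) = u * (Ω : ℂ) ^ (2 * r + 3).choose r) ∧ FinitelyManyPoints r a

/-- The coefficients `1, …, 1, D`. -/
def family (r D : ℕ) (i : Fin (2 * r + 3)) : ℕ := if i.val + 1 = 2 * r + 3 then D else 1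

/-- The `L`-function of `H^n`, `n = 2 r + 1`, of the hypersurface `x_0³ + … + x_n³ + D x_{n+1}³ = 0` is
entire, and its value at the centre `s = r + 1` is `u (Ω 3 ^ ω(D) / 9) ^ (dim H^n / 2)`. -/
def CentralValue (r D : ℕ) (u : ℂ) : Prop :=
  ∃ F : ℂ → ℂ, IsL r (family r D) F ∧
    F (r + 1) = u * ((Ω : ℂ) * 3 ^ D.primeFactors.card / 9) ^ (2 * r + 3).choose r

/-- The central value is a unit above `3` times `(Ω 3 ^ ω(D) / 9) ^ (dim H^n / 2)`. -/
def UnitAtThree (r D : ℕ) : Prop := ∃ u : ℂ, CentralValue r D u ∧ ThreeUnit u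

/-! ### Translation -/

theorem class_iff (D : ℕ) : Class D ↔ Pool.Agent.Y703.CT.Cls D := by
  unfold Class Pool.Agent.Y703.CT.Cls Pool.Agent.Y703.CT.Base
  constructor
  · rintro ⟨h1, h2, h3, h4, h5, h6⟩
    exact ⟨⟨h1, h3, h2⟩, h4, h5, h6⟩
  · rintro ⟨⟨h1, h3, h2⟩, h4, h5, h6⟩
    exact ⟨h1, h2, h3, h4, h5, h6⟩

theorem good {r : ℕ} {a : Fin (2 * r + 3) → ℕ} {p : ℕ} (hd : ¬ p ∣ 3 * ∏ i, a i) :
    p ≠ 3 ∧ ∀ i, ¬ p ∣ a i := by
  constructor
  · rintro rfl
    exact hd (dvd_mul_right 3 _)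
  · intro i hi
    exact hd (dvd_mul_of_dvd_right (hi.trans (Finset.dvd_prod_of_mem a (Finset.mem_univ i))) 3)

theorem isL_of {r : ℕ} (hr : r ≤ 2) {a : Fin (2 * r + 3) → ℕ} {F : ℂ → ℂ} (hF : Differentiable ℂ F)
    (h : ∀ s : ℂ, (r : ℝ) + 3 / 2 < s.re →
      HasProd (fun p : {p : ℕ // p.Prime ∧ ¬ p ∣ 3 * ∏ i, a i} =>
        (aeval ((p.1 : ℂ) ^ (-s)) (Pool.Agent.H733.CB.PP (2 * r + 3) r a p.1))⁻¹) (F s)) :
    IsL r a F := by
  refine ⟨hF, fun P hP s hs => ?_⟩
  refine (congrArg (fun g => HasProd g (F s)) (funext fun p => ?_)).mp (h s hs)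
  have h1 := good p.2.2
  have h2 : P p.1 = Pool.Agent.H733.CB.PP (2 * r + 3) r a p.1 :=
    Pool.Agent.H733.CB.IsFrob.unique p.2.1 (hP p.1 p.2.1 p.2.2)
      (Pool.Agent.H733.CB.PP_frob rfl hr a p.2.1 h1.1 h1.2)
  rw [h2]

theorem Om_ne (D r : ℕ) :
    ((Ω : ℂ) * 3 ^ D.primeFactors.card / 9) ^ (2 * r + 3).choose r ≠ 0 := by
  have h1 : (0 : ℝ) < Ω := by
    unfold Ω
    have := Real.Gamma_pos_of_pos (show (0 : ℝ) < 1 / 3 by norm_num)
    have := Real.pi_pos
    positivity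
  have h2 : (Ω : ℂ) ≠ 0 := by exact_mod_cast h1.ne'
  exact pow_ne_zero _ (div_ne_zero (mul_ne_zero h2 (pow_ne_zero _ (by norm_num))) (by norm_num))

theorem isL_unique {r : ℕ} (hr : r ≤ 2) {a : Fin (2 * r + 3) → ℕ} {F G : ℂ → ℂ} (hF : IsL r a F)
    (hG : IsL r a G) : F = G := by
  have hP : ∀ p : ℕ, p.Prime → ¬ p ∣ 3 * ∏ i, a i →
      IsFrobenius r a p (Pool.Agent.H733.CB.PP (2 * r + 3) r a p) := fun p hp hd =>
    Pool.Agent.H733.CB.PP_frob rfl hr a hp (good hd).1 (good hd).2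
  exact Pool.Agent.H733.CB.unique_F hF.1 hG.1 (hF.2 _ hP) (hG.2 _ hP)

theorem unit_iff {D : ℕ} (hC : Class D) {r : ℕ} (hr : r ≤ 2) :
    (∃ u : ℂ, CentralValue r D u ∧ ThreeInt u) ∧ (UnitAtThree r D ↔ NoSplit D) := by
  obtain ⟨F, h1, h2, u, h3, h4, h5⟩ := Pool.Agent.H733.CB.family_iff (N := 2 * r + 3) (r := r)
    (by omega) ((class_iff D).1 hC)
  have hL : IsL r (family r D) F := isL_of hr h1 h2
  refine ⟨⟨u, ⟨F, hL, h5⟩, h3⟩, ?_, fun h => ⟨u, ⟨F, hL, h5⟩, h4.2 h⟩⟩
  rintro ⟨v, ⟨G, hG, hv⟩, hu⟩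
  have e := isL_unique hr hL hG
  subst e
  have h6 : F (r + 1) = u * ((Ω : ℂ) * 3 ^ D.primeFactors.card / 9) ^ (2 * r + 3).choose r := h5
  rw [h6] at hv
  have h7 := mul_right_cancel₀ (Om_ne D r) hv
  rw [← h7] at hu
  exact h4.1 hu

theorem points {D : ℕ} (hC : Class D) (hS : NoSplit D) (r : ℕ) :
    FinitelyManyPoints r (family r D) :=
  (Pool.Agent.H733.CB.family (N := 2 * r + 3) (r := r) (by omega) ((class_iff D).1 hC) hS).2

theorem result :
    (∀ r : ℕ, r ≤ 2 → ∀ a : Fin (2 * r + 3) → ℕ, ∀ p : ℕ, p.Prime → ¬ p ∣ 3 * ∏ i, a i →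
      ∃! P : ℤ[X], IsFrobenius r a p P) ∧
    (∀ r : ℕ, 1 ≤ r → r ≤ 2 → ∀ a : Fin (2 * r + 3) → ℕ, (∀ i, a i ≠ 0) →
      (∀ T : Finset (Fin (2 * r + 3)), T.card = r →
        ∃ D c : ℕ, Class D ∧ NoSplit D ∧ M a T = D * c ^ 3) → RankZero r a) ∧
    (∀ r : ℕ, 1 ≤ r → r ≤ 2 → ∀ D : ℕ, Class D →
      (∃ u : ℂ, CentralValue r D u ∧ ThreeInt u) ∧ (UnitAtThree r D ↔ NoSplit D) ∧
      (NoSplit D → FinitelyManyPoints r (family r D))) ∧
    (0.56 : ℝ) < ∏' i : ℕ, (1 - (1 / 3 : ℝ) ^ (i + 1)) ∧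
    Filter.Tendsto (fun X : ℕ =>
        (((Finset.Icc 1 X).filter fun D => Class D ∧
          ∀ r : ℕ, 1 ≤ r → r ≤ 2 → UnitAtThree r D ∧ FinitelyManyPoints r (family r D)).card : ℝ) /
        (((Finset.Icc 1 X).filter fun D => Class D).card : ℝ)) Filter.atTop
      (nhds (∏' i : ℕ, (1 - (1 / 3 : ℝ) ^ (i + 1)))) := by
  refine ⟨?_, ?_, ?_, Pool.Agent.Y461.CX.t_C3.2.2.2, ?_⟩
  · intro r hr a p hp hd
    have h1 := good hd
    refine ⟨Pool.Agent.H733.CB.PP (2 * r + 3) r a p,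
      Pool.Agent.H733.CB.PP_frob rfl hr a hp h1.1 h1.2, fun Q hQ => ?_⟩
    exact Pool.Agent.H733.CB.IsFrob.unique hp hQ
      (Pool.Agent.H733.CB.PP_frob rfl hr a hp h1.1 h1.2)
  · intro r _ hr a ha hT
    obtain ⟨⟨F, h1, h2, u, h3, h4, h5⟩, h6⟩ := Pool.Agent.H733.CB.general a ha fun T hc => by
      obtain ⟨D, c, k1, k2, k3⟩ := hT T hc
      exact ⟨D, c, (class_iff D).1 k1, k2, k3⟩
    exact ⟨⟨F, u, isL_of hr h1 h2, h3, h4, h5⟩, h6⟩
  · intro r _ hr D hC
    exact ⟨(unit_iff hC hr).1, (unit_iff hC hr).2, fun hS => points hC hS r⟩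
  · have h := Pool.Agent.R419.CF.t_FIN
    unfold Pool.Agent.Y703.CX.c3 at h
    have e1 : ∀ X : ℕ, ((Finset.Icc 1 X).filter fun D => Class D) =
        (Finset.Icc 1 X).filter fun D => Pool.Agent.Y703.CT.Cls D := fun X =>
      Finset.filter_congr fun D _ => class_iff D
    have e2 : ∀ X : ℕ, ((Finset.Icc 1 X).filter fun D => Class D ∧
        ∀ r : ℕ, 1 ≤ r → r ≤ 2 → UnitAtThree r D ∧ FinitelyManyPoints r (family r D)) =
        (Finset.Icc 1 X).filter fun D => Pool.Agent.Y703.CT.Cls D ∧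
          Pool.Agent.Y703.CT.NoSplit D := by
      intro X
      refine Finset.filter_congr fun D _ => ?_
      rw [← class_iff]
      refine and_congr_right fun hC => ⟨fun h => ?_, fun hS r _ hr => ?_⟩
      · exact (unit_iff hC (by norm_num)).2.1 (h 1 le_rfl (by norm_num)).1
      · exact ⟨(unit_iff hC hr).2.2 hS, points hC hS r⟩
    simp only [e1, e2]
    exact h

end Pool.Agent.Results.MP_29b22a_nt.CubicThreefoldsFivefolds
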